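import Pool.Agent.FS.FewPairsEf.Example

namespace Pool.Agent.Results.MP_efcf90_co.FewPairs

/-- Seven is the largest `N` such that a finite additive poset has a rank as soon as, for each
nonzero `a`, at most `N` ordered independent pairs have no entry independent of `a`. -/
theorem result :
    IsGreatest {N : ℕ | ∀ (A : Type) [AddCommGroup A] [PartialOrder A] [Finite A],
      (∀ a b c : A, b ≤ a → c ≤ a → b + c ≤ a) →
      (∀ a b c : A, a ≤ b → a ≤ c → a ≤ a + b + c) →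
      (∀ a : A, a ≠ 0 →
        {p : A × A | p.1 ≤ p.1 + p.2 ∧ ¬ a ≤ a + p.1 ∧ ¬ a ≤ a + p.2}.ncard ≤ N) →
      ∃ r : A → ℕ,
        (∀ a : A, r a = 0 ↔ a = 0) ∧
        (∀ a b : A, a ≤ a + b → r (a + b) = r a + r b) ∧
        (∀ K : Finset A, K.Nonempty →
          0 ≤ ∑ J ∈ K.powerset.filter Finset.Nonempty,
              (-1 : ℤ) ^ (J.card + 1) * (r (∑ a ∈ J, a) : ℤ) ∧
          (2 : ℤ) ^ (K.card - 1) ∣ ∑ J ∈ K.powerset.filter Finset.Nonempty,
              (-1 : ℤ) ^ (J.card + 1) * (r (∑ a ∈ J, a) : ℤ))} 7 := by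
  refine ⟨fun _ _ _ _ h1 h2 H => Pool.Agent.FS.FewPairsEf.exists_rank h1 h2 H, fun N hN => ?_⟩
  by_contra hc
  obtain ⟨A, _, _, _, h1, h2, h3, h4⟩ := Pool.Agent.FS.FewPairsEf.exists_example
  refine h4 (hN A h1 h2 fun a _ => le_trans ?_ (h3.le.trans (by omega)))
  refine Set.ncard_le_ncard (fun p hp => ⟨fun h => hp.2.1 ?_, fun h => hp.2.2 ?_, hp.1⟩)
    (Set.toFinite _)
  · rw [h, add_zero]
  · rw [h, add_zero]

end Pool.Agent.Results.MP_efcf90_co.FewPairs
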