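import Mathlib

/-!
For every `n ≥ 5` there is an additive poset with `2^n` elements on which every real function that
is additive on independent pairs and has nonnegative inclusion-exclusion sums vanishes identically.

The core is `(ZMod 2)^5` with six pairwise disjoint lines, each with a chosen top: every nonzero
linear functional equals one on both atoms of one of the six lines. For larger `n` one more point
`t` of the core is made the top of all vectors `(0,w)` and `(t,w)`.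
-/

namespace Pool.Agent.Results.MP_efcf90_co.RanksVanish

/-- the group of the core example -/
abbrev V : Type := ZMod 2 × ZMod 2 × ZMod 2 × ZMod 2 × ZMod 2

/-- the strict part of the core order among nonzero vectors: pairs (atom, top) -/
def covers : List (V × V) :=
  [((0,1,0,0,0),(1,1,1,1,0)), ((1,0,1,1,0),(1,1,1,1,0)),
   ((1,1,0,1,0),(0,0,0,1,1)), ((1,1,0,0,1),(0,0,0,1,1)),
   ((0,0,1,0,0),(0,1,1,1,1)), ((0,1,0,1,1),(0,1,1,1,1)),
   ((1,0,1,0,1),(1,0,0,1,0)), ((0,0,1,1,1),(1,0,0,1,0)),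
   ((0,0,0,1,0),(1,1,1,0,1)), ((1,1,1,1,1),(1,1,1,0,1)),
   ((0,0,0,0,1),(0,1,1,0,0)), ((0,1,1,0,1),(0,1,1,0,0))]

/-- the order relation of the core example -/
def below (a b : V) : Prop := a = 0 ∨ a = b ∨ (a, b) ∈ covers

instance (a b : V) : Decidable (below a b) := by unfold below; infer_instance

/-- a point of the core lying on none of the six lines -/
def t : V := (1,0,0,0,0)

theorem below_trans : ∀ a b : V, below a b → ∀ c : V, below b c → below a c := by decide +kernel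
theorem below_antisymm : ∀ a b : V, below a b → below b a → a = b := by decide +kernel
theorem below_add : ∀ a b : V, below b a → ∀ c : V, below c a → below (b + c) a := by
  decide +kernel
theorem below_add_add : ∀ a b : V, below a b → ∀ c : V, below a c → below a (a + b + c) := by
  decide +kernel
theorem below_t' : ∀ a : V, below a t → ¬ a = 0 → a = t := by decide +kernel
theorem below_t (a : V) (h : below a t) : a = 0 ∨ a = t := or_iff_not_imp_left.2 (below_t' a h)
theorem t_below : ∀ a : V, below t a → a = t := by decide +kernel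
theorem below_zero : ∀ a : V, below a 0 → a = 0 := by decide +kernel
theorem self_add : ∀ a : V, a + a = 0 := by decide +kernel
theorem t_ne : t ≠ 0 := by decide +kernel
theorem below_refl (a : V) : below a a := Or.inr (Or.inl rfl)
theorem zero_below (a : V) : below 0 a := Or.inl rfl

section Extension

variable {W : Type} [AddCommGroup W]

/-- the order on the core times `W` -/
def le2 (x y : V × W) : Prop :=
  x = 0 ∨ x = y ∨ (x.2 = 0 ∧ y.2 = 0 ∧ below x.1 y.1) ∨ (y = (t, 0) ∧ (x.1 = 0 ∨ x.1 = t))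

theorem le2_cases {x y : V × W} (h : le2 x y) :
    (y = (t, 0) ∧ (x.1 = 0 ∨ x.1 = t)) ∨ (x.2 = 0 ∧ y.2 = 0 ∧ below x.1 y.1) ∨
      (y.2 ≠ 0 ∧ (x = 0 ∨ x = y)) := by
  rcases h with h | h | h | h
  · by_cases hy : y.2 = 0
    · exact Or.inr (Or.inl ⟨by rw [h]; rfl, hy, by rw [h]; exact zero_below _⟩)
    · exact Or.inr (Or.inr ⟨hy, Or.inl h⟩)
  · by_cases hy : y.2 = 0
    · exact Or.inr (Or.inl ⟨by rw [h]; exact hy, hy, by rw [h]; exact below_refl _⟩)
    · exact Or.inr (Or.inr ⟨hy, Or.inr h⟩)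
  · exact Or.inr (Or.inl h)
  · exact Or.inl h

theorem le2_trans (x y z : V × W) (h1 : le2 x y) (h2 : le2 y z) : le2 x z := by
  rcases h1 with h1 | h1 | h1 | h1
  · exact Or.inl h1
  · rw [h1]; exact h2
  · rcases h2 with h2 | h2 | h2 | h2
    · left
      have : x.1 = 0 := below_zero _ (by simpa [h2] using h1.2.2)
      exact Prod.ext this h1.1
    · rw [← h2]; exact Or.inr (Or.inr (Or.inl h1))
    · exact Or.inr (Or.inr (Or.inl ⟨h1.1, h2.2.1, below_trans _ _ h1.2.2 _ h2.2.2⟩))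
    · refine Or.inr (Or.inr (Or.inr ⟨h2.1, ?_⟩))
      rcases h2.2 with h | h
      · exact Or.inl (below_zero _ (h ▸ h1.2.2))
      · exact below_t _ (h ▸ h1.2.2)
  · rcases h2 with h2 | h2 | h2 | h2
    · exact absurd (congrArg Prod.fst (h1.1.symm.trans h2)) t_ne
    · rw [← h2]; exact Or.inr (Or.inr (Or.inr h1))
    · have : z.1 = t := t_below _ (by simpa [h1.1] using h2.2.2)
      exact Or.inr (Or.inr (Or.inr ⟨Prod.ext this h2.2.1, h1.2⟩))
    · exact Or.inr (Or.inr (Or.inr ⟨h2.1, h1.2⟩))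

theorem le2_antisymm (x y : V × W) (h1 : le2 x y) (h2 : le2 y x) : x = y := by
  rcases le2_cases h1 with h1 | h1 | h1
  · rcases le2_cases h2 with h2 | h2 | h2
    · exact h2.1.trans h1.1.symm
    · have : x.1 = t := t_below _ (by simpa [h1.1] using h2.2.2)
      rw [h1.1]; exact Prod.ext this h2.2.1
    · rcases h2.2 with h | h
      · exact absurd (congrArg Prod.fst (h1.1.symm.trans h)) t_ne
      · exact h.symm
  · rcases le2_cases h2 with h2 | h2 | h2
    · have : y.1 = t := t_below _ (by simpa [h2.1] using h1.2.2)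
      rw [h2.1]; exact (Prod.ext this h1.2.1).symm
    · exact Prod.ext (below_antisymm _ _ h1.2.2 h2.2.2) (h1.1.trans h1.2.1.symm)
    · exact absurd h1.1 h2.1
  · rcases h1.2 with h | h
    · rcases le2_cases h2 with h2 | h2 | h2
      · exact absurd (congrArg Prod.fst (h2.1.symm.trans h)) t_ne
      · exact absurd h2.1 h1.1
      · exact absurd (by rw [h]; rfl) h2.1
    · exact h

theorem le2_add (hW : ∀ w : W, w + w = 0) (a b c : V × W) (h1 : le2 b a) (h2 : le2 c a) :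
    le2 (b + c) a := by
  have key : ∀ x : V × W, le2 x (t, 0) → x.1 = 0 ∨ x.1 = t := by
    intro x hx
    rcases le2_cases hx with h | h | h
    · exact h.2
    · exact below_t _ h.2.2
    · exact absurd rfl h.1
  by_cases ha : a = (t, 0)
  · refine Or.inr (Or.inr (Or.inr ⟨ha, ?_⟩))
    rw [ha] at h1 h2
    rcases key b h1 with hb | hb <;> rcases key c h2 with hc | hc <;>
      simp [hb, hc, self_add]
  · rcases le2_cases h1 with h1 | h1 | h1
    · exact absurd h1.1 ha
    · rcases le2_cases h2 with h2 | h2 | h2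
      · exact absurd h2.1 ha
      · refine Or.inr (Or.inr (Or.inl ⟨?_, h1.2.1, below_add _ _ h1.2.2 _ h2.2.2⟩))
        simp [h1.1, h2.1]
      · exact absurd h1.2.1 h2.1
    · rcases le2_cases h2 with h2 | h2 | h2
      · exact absurd h2.1 ha
      · exact absurd h2.2.1 h1.1
      · rcases h1.2 with hb | hb <;> rcases h2.2 with hc | hc
        · left; simp [hb, hc]
        · right; left; simp [hb, hc]
        · right; left; simp [hb, hc]
        · left; rw [hb, hc]; exact Prod.ext (self_add _) (hW _)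

theorem le2_add_add (hW : ∀ w : W, w + w = 0) (a b c : V × W) (h1 : le2 a b) (h2 : le2 a c) :
    le2 a (a + b + c) := by
  have hA : ∀ x : V × W, x + x = 0 := fun x => Prod.ext (self_add _) (hW _)
  by_cases h0 : a = 0
  · exact Or.inl h0
  by_cases hab : a = b
  · rw [← hab, hA, zero_add]; exact h2
  by_cases hac : a = c
  · rw [← hac, add_right_comm, hA, zero_add]; exact h1
  by_cases hbc : b = c
  · rw [hbc, add_assoc, hA, add_zero]; exact Or.inr (Or.inl rfl)
  have key : ∀ y : V × W, a.2 = 0 → (a.1 = 0 ∨ a.1 = t) → y = (t, 0) → a = y := by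
    intro y h2 h1 hy
    rcases h1 with h | h
    · exact absurd (Prod.ext h h2) h0
    · rw [hy]; exact Prod.ext h h2
  rcases h1 with h1 | h1 | h1 | h1
  · exact absurd h1 h0
  · exact absurd h1 hab
  · rcases h2 with h2 | h2 | h2 | h2
    · exact absurd h2 h0
    · exact absurd h2 hac
    · refine Or.inr (Or.inr (Or.inl ⟨h1.1, ?_, below_add_add _ _ h1.2.2 _ h2.2.2⟩))
      simp [h1.1, h1.2.1, h2.2.1]
    · exact absurd (key c h1.1 h2.2 h2.1) hac
  · rcases h2 with h2 | h2 | h2 | h2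
    · exact absurd h2 h0
    · exact absurd h2 hac
    · exact absurd (key b h2.1 h1.2 h1.1) hab
    · exact absurd (h1.1.trans h2.1.symm) hbc

/-- the partial order of the example -/
@[reducible] def ord (W : Type) [AddCommGroup W] : PartialOrder (V × W) where
  le := le2
  lt a b := le2 a b ∧ ¬ le2 b a
  le_refl _ := Or.inr (Or.inl rfl)
  le_trans := le2_trans
  le_antisymm := le2_antisymm
  lt_iff_le_not_ge _ _ := Iff.rfl

end Extension

/-- iterated differences of `r` along a list -/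
def alt {A : Type} [AddCommGroup A] (r : A → ℝ) : List A → A → ℝ
  | [], x => r x
  | a :: l, x => alt r l x - alt r l (x + a)

theorem sum_eq_alt {A : Type} [AddCommGroup A] [DecidableEq A] (r : A → ℝ) (l : List A)
    (hl : l.Nodup) (x : A) :
    ∑ J ∈ l.toFinset.powerset, (-1 : ℝ) ^ J.card * r (x + ∑ a ∈ J, a) = alt r l x := by
  induction l generalizing x with
  | nil => simp [alt]
  | cons a l ih =>
    have ha : a ∉ l.toFinset := by simpa using (List.nodup_cons.1 hl).1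
    have hl' := (List.nodup_cons.1 hl).2
    rw [List.toFinset_cons, Finset.sum_powerset_insert ha, alt, ← ih hl' x, ← ih hl' (x + a),
      sub_eq_add_neg, ← Finset.sum_neg_distrib]
    congr 1
    apply Finset.sum_congr rfl
    intro J hJ
    have haJ : a ∉ J := fun h => ha (Finset.mem_powerset.1 hJ h)
    rw [Finset.card_insert_of_notMem haJ, Finset.sum_insert haJ, add_assoc, pow_succ]
    ring

theorem alt_nonpos {A : Type} [AddCommGroup A] (r : A → ℝ) (h0 : r 0 = 0)
    (h3 : ∀ K : Finset A, K.Nonempty →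
      0 ≤ ∑ J ∈ K.powerset.filter Finset.Nonempty, (-1 : ℝ) ^ (J.card + 1) * r (∑ a ∈ J, a))
    (l : List A) (hl : l.Nodup) : alt r l 0 ≤ 0 := by
  classical
  rcases l.toFinset.eq_empty_or_nonempty with h | h
  · rw [← sum_eq_alt r l hl, h]; simp [h0]
  · have h4 := h3 _ h
    have h1 : ∑ J ∈ l.toFinset.powerset.filter Finset.Nonempty,
          (-1 : ℝ) ^ (J.card + 1) * r (∑ a ∈ J, a)
        = ∑ J ∈ l.toFinset.powerset, (-1 : ℝ) ^ (J.card + 1) * r (∑ a ∈ J, a) := by
      apply Finset.sum_filter_of_ne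
      intro J _ hJ
      by_contra hne
      rw [Finset.not_nonempty_iff_eq_empty] at hne
      apply hJ
      simp [hne, h0]
    rw [h1] at h4
    rw [← sum_eq_alt r l hl, ← neg_nonneg, ← Finset.sum_neg_distrib]
    convert h4 using 2 with J
    rw [zero_add, pow_succ]
    ring

theorem alt_map {A B : Type} [AddCommGroup A] [AddCommGroup B] (φ : A →+ B) (r : B → ℝ)
    (l : List A) (x : A) : alt (fun a => r (φ a)) l x = alt r (l.map φ) (φ x) := by
  induction l generalizing x with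
  | nil => rfl
  | cons a l ih => simp only [alt, List.map_cons, ih, map_add]

theorem sum_two (g : ZMod 2 → ℝ) : ∑ x, g x = g 0 + g 1 := Fin.sum_univ_two g

theorem core (r : V → ℝ) (h0 : r (0,0,0,0,0) = 0)
    (h2 : ∀ a b : V, below a (a + b) → r (a + b) = r a + r b)
    (h3 : ∀ l : List V, l.Nodup → alt r l (0,0,0,0,0) ≤ 0) : ∑ v, r v ≤ 0 := by
  have e0 := h2 (0,1,0,0,0) (1,0,1,1,0) (by decide)
  have e1 := h2 (1,1,0,1,0) (1,1,0,0,1) (by decide)
  have e2 := h2 (0,0,1,0,0) (0,1,0,1,1) (by decide)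
  have e3 := h2 (1,0,1,0,1) (0,0,1,1,1) (by decide)
  have e4 := h2 (0,0,0,1,0) (1,1,1,1,1) (by decide)
  have e5 := h2 (0,0,0,0,1) (0,1,1,0,1) (by decide)
  have k0 := h3 [(1,0,0,0,0), (1,1,0,0,0), (1,0,1,0,0), (1,0,0,1,0), (1,0,0,0,1)] (by decide)
  have k1 := h3 [(1,1,0,0,0), (0,1,0,0,0), (0,1,1,0,0), (0,1,0,1,0), (0,1,0,0,1)] (by decide)
  have k2 := h3 [(1,0,0,0,0), (0,1,0,0,0), (1,0,1,0,0), (1,0,0,1,0), (1,0,0,0,1)] (by decide)
  have k3 := h3 [(1,0,1,0,0), (0,1,1,0,0), (0,0,1,0,0), (0,0,1,1,0), (0,0,1,0,1)] (by decide)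
  have k4 := h3 [(1,0,0,0,0), (1,1,0,0,0), (0,0,1,0,0), (1,0,0,1,0), (1,0,0,0,1)] (by decide)
  have k5 := h3 [(1,1,0,0,0), (0,1,0,0,0), (0,0,1,0,0), (0,1,0,1,0), (0,1,0,0,1)] (by decide)
  have k6 := h3 [(1,0,0,0,0), (0,1,0,0,0), (0,0,1,0,0), (1,0,0,1,0), (1,0,0,0,1)] (by decide)
  have k7 := h3 [(1,0,0,1,0), (0,1,0,1,0), (0,0,1,1,0), (0,0,0,1,0), (0,0,0,1,1)] (by decide)
  have k8 := h3 [(1,0,0,0,0), (1,1,0,0,0), (1,0,1,0,0), (0,0,0,1,0), (1,0,0,0,1)] (by decide)
  have k9 := h3 [(1,1,0,0,0), (0,1,0,0,0), (0,1,1,0,0), (0,0,0,1,0), (0,1,0,0,1)] (by decide)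
  have k10 := h3 [(1,0,0,0,0), (0,1,0,0,0), (1,0,1,0,0), (0,0,0,1,0), (1,0,0,0,1)] (by decide)
  have k11 := h3 [(1,0,1,0,0), (0,1,1,0,0), (0,0,1,0,0), (0,0,0,1,0), (0,0,1,0,1)] (by decide)
  have k12 := h3 [(1,0,0,0,0), (1,1,0,0,0), (0,0,1,0,0), (0,0,0,1,0), (1,0,0,0,1)] (by decide)
  have k13 := h3 [(1,1,0,0,0), (0,1,0,0,0), (0,0,1,0,0), (0,0,0,1,0), (0,1,0,0,1)] (by decide)
  have k14 := h3 [(1,0,0,0,0), (0,1,0,0,0), (0,0,1,0,0), (0,0,0,1,0), (1,0,0,0,1)] (by decide)
  have k15 := h3 [(1,0,0,0,1), (0,1,0,0,1), (0,0,1,0,1), (0,0,0,1,1), (0,0,0,0,1)] (by decide)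
  have k16 := h3 [(1,0,0,0,0), (1,1,0,0,0), (1,0,1,0,0), (1,0,0,1,0), (0,0,0,0,1)] (by decide)
  have k17 := h3 [(1,1,0,0,0), (0,1,0,0,0), (0,1,1,0,0), (0,1,0,1,0), (0,0,0,0,1)] (by decide)
  have k18 := h3 [(1,0,0,0,0), (0,1,0,0,0), (1,0,1,0,0), (1,0,0,1,0), (0,0,0,0,1)] (by decide)
  have k19 := h3 [(1,0,1,0,0), (0,1,1,0,0), (0,0,1,0,0), (0,0,1,1,0), (0,0,0,0,1)] (by decide)
  have k20 := h3 [(1,0,0,0,0), (1,1,0,0,0), (0,0,1,0,0), (1,0,0,1,0), (0,0,0,0,1)] (by decide)
  have k21 := h3 [(1,1,0,0,0), (0,1,0,0,0), (0,0,1,0,0), (0,1,0,1,0), (0,0,0,0,1)] (by decide)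
  have k22 := h3 [(1,0,0,0,0), (0,1,0,0,0), (0,0,1,0,0), (1,0,0,1,0), (0,0,0,0,1)] (by decide)
  have k23 := h3 [(1,0,0,1,0), (0,1,0,1,0), (0,0,1,1,0), (0,0,0,1,0), (0,0,0,0,1)] (by decide)
  have k24 := h3 [(1,0,0,0,0), (1,1,0,0,0), (1,0,1,0,0), (0,0,0,1,0), (0,0,0,0,1)] (by decide)
  have k25 := h3 [(1,1,0,0,0), (0,1,0,0,0), (0,1,1,0,0), (0,0,0,1,0), (0,0,0,0,1)] (by decide)
  have k26 := h3 [(1,0,0,0,0), (0,1,0,0,0), (1,0,1,0,0), (0,0,0,1,0), (0,0,0,0,1)] (by decide)
  have k27 := h3 [(1,0,1,0,0), (0,1,1,0,0), (0,0,1,0,0), (0,0,0,1,0), (0,0,0,0,1)] (by decide)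
  have k28 := h3 [(1,0,0,0,0), (1,1,0,0,0), (0,0,1,0,0), (0,0,0,1,0), (0,0,0,0,1)] (by decide)
  have k29 := h3 [(1,1,0,0,0), (0,1,0,0,0), (0,0,1,0,0), (0,0,0,1,0), (0,0,0,0,1)] (by decide)
  have k30 := h3 [(1,0,0,0,0), (0,1,0,0,0), (0,0,1,0,0), (0,0,0,1,0), (0,0,0,0,1)] (by decide)
  have two : (1 : ZMod 2) + 1 = 0 := by decide
  simp only [alt, Prod.mk_add_mk, two, add_zero, zero_add] at e0 e1 e2 e3 e4 e5 k0 k1 k2 k3 k4 k5 k6 k7 k8 k9 k10 k11 k12 k13 k14 k15 k16 k17 k18 k19 k20 k21 k22 k23 k24 k25 k26 k27 k28 k29 k30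
  simp only [Fintype.sum_prod_type, sum_two]
  linarith

theorem result (n : ℕ) (hn : 5 ≤ n) :
    ∃ (A : Type) (_ : AddCommGroup A) (_ : PartialOrder A) (_ : Fintype A),
      Fintype.card A = 2 ^ n ∧
      (∀ a b c : A, b ≤ a → c ≤ a → b + c ≤ a) ∧
      (∀ a b c : A, a ≤ b → a ≤ c → a ≤ a + b + c) ∧
      ∀ r : A → ℝ,
        (∀ a b : A, a ≤ a + b → r (a + b) = r a + r b) →
        (∀ K : Finset A, K.Nonempty →
          0 ≤ ∑ J ∈ K.powerset.filter Finset.Nonempty,
              (-1 : ℝ) ^ (J.card + 1) * r (∑ a ∈ J, a)) →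
        ∀ a : A, r a = 0 := by
  have hz : ∀ z : ZMod 2, z + z = 0 := by decide
  have hW : ∀ w : Fin (n - 5) → ZMod 2, w + w = 0 := fun w => funext fun i => hz (w i)
  refine ⟨V × (Fin (n - 5) → ZMod 2), inferInstance, ord _, inferInstance, ?_, le2_add hW,
    le2_add_add hW, ?_⟩
  · obtain ⟨m, rfl⟩ := Nat.exists_eq_add_of_le hn
    simp [V, pow_add]
  intro r h2 h3
  have h0 : r 0 = 0 := by
    have := h2 0 0 (Or.inl rfl)
    rw [add_zero] at this
    linarith
  have h4 := alt_nonpos r h0 h3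
  have hpos : ∀ a, 0 ≤ r a := by
    intro a
    have := h4 [a] (List.nodup_singleton a)
    simp only [alt, zero_add] at this
    linarith
  have hsub : ∀ a b, a ≠ b → r (a + b) ≤ r a + r b := by
    intro a b hab
    have := h4 [a, b] (by simp [hab])
    simp only [alt, zero_add] at this
    linarith
  have hV : ∀ v : V, r (v, 0) = 0 := by
    have hs := core (fun v => r (AddMonoidHom.inl V (Fin (n - 5) → ZMod 2) v)) h0 (by
      intro a b hab
      have := h2 (a, 0) (b, 0) (Or.inr (Or.inr (Or.inl ⟨rfl, by simp, hab⟩)))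
      simpa using this) (by
      intro l hl
      rw [alt_map]
      exact h4 _ (hl.map fun a b h => congrArg Prod.fst h))
    have := (Finset.sum_eq_zero_iff_of_nonneg (fun v _ => hpos _)).1
      (le_antisymm hs (Finset.sum_nonneg fun v _ => hpos _))
    exact fun v => this v (Finset.mem_univ v)
  have hWz : ∀ w : Fin (n - 5) → ZMod 2, r (0, w) = 0 := by
    intro w
    have e : ((0, w) : V × (Fin (n - 5) → ZMod 2)) + (t, w) = (t, 0) := by simp [hW]
    have := h2 (0, w) (t, w) (Or.inr (Or.inr (Or.inr ⟨e, Or.inl rfl⟩)))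
    rw [e, hV] at this
    have p1 := hpos (0, w)
    have p2 := hpos (t, w)
    linarith
  rintro ⟨v, w⟩
  by_cases hw : w = 0
  · rw [hw]; exact hV v
  · have := hsub (v, 0) (0, w) (fun h => hw (congrArg Prod.snd h).symm)
    rw [hV, hWz] at this
    simp only [Prod.mk_add_mk, add_zero, zero_add] at this
    exact le_antisymm this (hpos _)

/-- The posed question follows: these posets admit no rank. -/
theorem no_rank :
    ∃ (A : Type) (_ : AddCommGroup A) (_ : PartialOrder A) (_ : Fintype A),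
      (∀ a b c : A, b ≤ a → c ≤ a → b + c ≤ a) ∧
      (∀ a b c : A, a ≤ b → a ≤ c → a ≤ a + b + c) ∧
      ¬ ∃ r : A → ℕ,
        (∀ a : A, r a = 0 ↔ a = 0) ∧
        (∀ a b : A, a ≤ a + b → r (a + b) = r a + r b) ∧
        (∀ K : Finset A, K.Nonempty →
          0 ≤ ∑ J ∈ K.powerset.filter Finset.Nonempty,
              (-1 : ℤ) ^ (J.card + 1) * (r (∑ a ∈ J, a) : ℤ) ∧
          (2 : ℤ) ^ (K.card - 1) ∣ ∑ J ∈ K.powerset.filter Finset.Nonempty,
              (-1 : ℤ) ^ (J.card + 1) * (r (∑ a ∈ J, a) : ℤ)) := by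
  obtain ⟨A, i1, i2, i3, hc, h1, h2, h3⟩ := result 5 le_rfl
  refine ⟨A, i1, i2, i3, h1, h2, ?_⟩
  rintro ⟨r, r1, r2, r3⟩
  have hz := h3 (fun a => (r a : ℝ)) (fun a b h => by rw [r2 a b h]; push_cast; rfl)
    (fun K hK => by exact_mod_cast (r3 K hK).1)
  have : Nontrivial A := Fintype.one_lt_card_iff_nontrivial.1 (by rw [hc]; norm_num)
  obtain ⟨a, ha⟩ := exists_ne (0 : A)
  exact ha ((r1 a).1 (by exact_mod_cast hz a))

end Pool.Agent.Results.MP_efcf90_co.RanksVanish
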